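import Pool.Agent.Lib_MP_318645_int.Square

set_option autoImplicit false

namespace Pool.Agent.MP_318645_int

open Finset

/-- A Latin square without integral transversal has the cyclic labelling. -/
theorem integral_of_not_cyclic {n : ℕ} (hn : 0 < n) (M : Fin n → Fin n → ℕ) (hM : IsLatin M)
    (hN : (symbols M).card = n) (hC : ¬ HasCyclicLabelling M) : HasIntegralTransversal M := by
  classical
  by_contra hI
  rw [integral_iff, not_not] at hI
  obtain ⟨G, _, x, y, z, hz, hT⟩ := hI
  have hne := hT (symbols M) (Subset.refl _) hN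
  let i0 : Fin n := ⟨0, hn⟩
  have hr : RowOverlap (toSub M) n := by
    have h := rowsShare_of_card M hM
    rw [hN, show 2 * n - n = n by omega] at h
    exact rowOverlap_of_share M h
  have hc : RowOverlap (fun j i => toSub M i j) n := by
    have h := rowsShare_of_card (fun j i => M i j) (latin_transpose M hM)
    rw [symbols_transpose, hN, show 2 * n - n = n by omega] at h
    exact colOverlap_of_share M h
  obtain ⟨K, x', y', z', gx, gy, hK, h1, h2, h3, h4, h5, h6, -, -⟩ :=
    reduce_to_finite hn (toSub M)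
      (fun s => by
        obtain ⟨s, hs⟩ := s
        have hs' := hs
        rw [symbols, mem_image] at hs'
        obtain ⟨⟨i, j⟩, -, h⟩ := hs'
        exact ⟨i, j, Subtype.ext h⟩)
      x y (fun s => z s.1) hz hn hn (by omega) hr hc
  have := hK
  let _ : Fintype K := Fintype.ofFinite K
  have hxy : ∀ i j i' j', M i j = M i' j' → x' i + y' j = x' i' + y' j' := by
    intro i j i' j' h
    rw [← h4, ← h4]
    congr 1
    exact Subtype.ext h
  have hperm : ∀ t : K, ∃ σ : Equiv.Perm (Fin n), ∀ i, x' (σ i) = x' i + t := by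
    intro t
    obtain ⟨j, j', hj⟩ := h6 t
    obtain ⟨σ, hσ⟩ := col_label_perm M hM hN x' y' hxy j j'
    exact ⟨σ, fun i => by rw [hσ, hj, add_sub_cancel_left]⟩
  obtain ⟨k, hk1, hk2, hk3⟩ := uniform x' hperm
  -- the sum of the row labels is not zero
  have hδ : ∑ i, x' i ≠ 0 := by
    intro h0
    apply hne
    rw [sum_symbols M hM hN i0 z]
    simp_rw [hz, sum_add_distrib, sum_const, card_univ, Fintype.card_fin]
    congr 1
    have e1 : x i0 = (x' i0 : G) + gx := by rw [h1]; abel
    have e2 : ∑ i, x i = ((∑ i, x' i : K) : G) + n • gx := by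
      rw [AddSubgroup.val_finsetSum]
      simp_rw [h1, sum_sub_distrib]
      rw [sum_const, card_univ, Fintype.card_fin]
      abel
    rw [e1, e2, h0, nsmul_add]
    congr 1
    have e3 : n • x' i0 = 0 := by
      rw [hk1, mul_comm, mul_nsmul]
      have : Fintype.card K • x' i0 = 0 := card_nsmul_eq_zero
      rw [this, nsmul_zero]
    have e4 : n • (x' i0 : G) = ((n • x' i0 : K) : G) := rfl
    rw [e4, e3]
  have hδ2 : 2 • ∑ i, x' i = 0 := by
    rw [hk2, ← mul_nsmul', mul_comm, mul_nsmul', two_nsmul_sum, nsmul_zero]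
  obtain ⟨a, φ, ha, hφ, hφδ⟩ := exists_cyclic_quotient K _ hδ hδ2
  have hNZ : NeZero (2 ^ a) := ⟨by positivity⟩
  have hperm' : ∀ t : ZMod (2 ^ a), ∃ σ : Equiv.Perm (Fin n), ∀ i, φ (x' (σ i)) = φ (x' i) + t := by
    intro t
    obtain ⟨s, rfl⟩ := hφ t
    obtain ⟨σ, hσ⟩ := hperm s
    exact ⟨σ, fun i => by rw [hσ, map_add]⟩
  obtain ⟨k', hk1', hk2', hk3'⟩ := uniform (fun i => φ (x' i)) hperm'
  rw [ZMod.card] at hk1'
  rw [map_sum] at hφδ
  rcases Nat.even_or_odd' k' with ⟨c, hc' | hc'⟩
  · exfalso
    apply hφδ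
    rw [hk2', hc', mul_nsmul, two_nsmul_sum, nsmul_zero]
  · apply hC
    refine ⟨a, fun i => φ (x' i), fun j => φ (y' j), ha, ⟨c, ?_⟩, hk3' hn, ?_⟩
    · rw [hk1', hc', mul_comm]
    · intro i j i' j' h
      rw [← map_add, ← map_add, hxy _ _ _ _ h]

/-! ### Elementary abelian 2-groups -/

theorem pi_add_self {m : ℕ} (v : Fin m → ZMod 2) : v + v = 0 := by
  funext i
  exact CharTwo.add_self_eq_zero (v i)

theorem sum_pi_eq_zero {m : ℕ} (hm : 2 ≤ m) : ∑ g : Fin m → ZMod 2, g = 0 := by
  classical
  funext i
  rw [Finset.sum_apply, Pi.zero_apply]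
  -- an index different from `i`
  have : ∃ j : Fin m, j ≠ i := by
    by_cases h : i = ⟨0, by omega⟩
    · exact ⟨⟨1, by omega⟩, by rw [h]; intro h'; simp at h'⟩
    · exact ⟨⟨0, by omega⟩, Ne.symm h⟩
  obtain ⟨j, hj⟩ := this
  refine sum_involution (fun g _ => g + Pi.single j 1) ?_ ?_ ?_ ?_
  · intro g _
    rw [Pi.add_apply, Pi.single_eq_of_ne (Ne.symm hj), add_zero]
    exact CharTwo.add_self_eq_zero (g i)
  · intro g _ _ h
    have := congrFun h j
    rw [Pi.add_apply, Pi.single_eq_same] at this
    exact one_ne_zero (add_eq_left.mp this)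
  · intro g _; exact mem_univ _
  · intro g _
    show g + Pi.single j 1 + Pi.single j 1 = g
    rw [add_assoc, pi_add_self, add_zero]

/-- The array of Akbari and Alireza has no integral transversal. -/
theorem not_integral_of_AA {n : ℕ} (M : Fin n → Fin n → ℕ) (hA : IsAkbariAlireza M) :
    ¬ HasIntegralTransversal M := by
  classical
  intro hI
  obtain ⟨m, x, y, hm, hnm, hx, hy, hxy, hM⟩ := hA
  have hz : ∃ z : ℕ → (Fin m → ZMod 2), ∀ i j, z (M i j) = x i + y j := by
    refine ⟨fun s => if h : ∃ q : Fin n × Fin n, M q.1 q.2 = s then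
      x h.choose.1 + y h.choose.2 else 0, fun i j => ?_⟩
    have h : ∃ q : Fin n × Fin n, M q.1 q.2 = M i j := ⟨(i, j), rfl⟩
    show (if h : ∃ q : Fin n × Fin n, M q.1 q.2 = M i j then
      x h.choose.1 + y h.choose.2 else 0) = _
    rw [dif_pos h]
    exact (hM _ _ _ _).mp h.choose_spec
  obtain ⟨z, hz⟩ := hz
  obtain ⟨T, hT1, hT2, hT3⟩ := labels_of_integral M hI x y z hz
  have hinj : Set.InjOn z T := by
    intro s hs s' hs' h
    have h1 := hT1 hs
    have h2 := hT1 hs'
    rw [symbols, mem_image] at h1 h2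
    obtain ⟨⟨i, j⟩, -, rfl⟩ := h1
    obtain ⟨⟨i', j'⟩, -, rfl⟩ := h2
    rw [hz, hz] at h
    exact (hM _ _ _ _).mpr h
  have hsumx : ∑ i, x i = ∑ g ∈ univ.image x, g := by
    rw [sum_image (fun a _ b _ h => hx h)]
  have hsumy : ∑ j, y j = ∑ g ∈ univ.image y, g := by
    rw [sum_image (fun a _ b _ h => hy h)]
  have himg : univ.image x = univ.image y := by
    ext g
    have := Set.ext_iff.mp hxy g
    simpa using this
  have h0 : ∑ s ∈ T, z s = 0 := by
    rw [hT3, hsumx, hsumy, himg, pi_add_self]
  have hB : (T.image z).card = n := by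
    rw [card_image_of_injOn hinj, hT2]
  have hBs : ∑ g ∈ T.image z, g = 0 := by
    rw [sum_image hinj, h0]
  have hc : ((T.image z)ᶜ).card = 2 := by
    rw [card_compl, hB]
    have : Fintype.card (Fin m → ZMod 2) = 2 ^ m := by simp
    rw [this, ← hnm]
    omega
  obtain ⟨u, v, huv, huv'⟩ := card_eq_two.mp hc
  have h1 := sum_add_sum_compl (T.image z) (fun g : Fin m → ZMod 2 => g)
  rw [hBs, huv', sum_pair huv, zero_add, sum_pi_eq_zero hm] at h1
  apply huv
  have h2 : u + v = v + v := by rw [h1, pi_add_self]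
  exact add_right_cancel h2

/-- Normal form of the exceptional case. -/
theorem AA_of_data {n : ℕ} (hn : 0 < n) (M : Fin n → Fin n → ℕ)
    (hcard : Fintype.card {s // s ∈ symbols M} = n + 2)
    {K : Type*} [AddCommGroup K] [Finite K] (x' y' : Fin n → K)
    (z' : {s // s ∈ symbols M} → K) (hz'b : Function.Bijective z')
    (hx' : Function.Injective x') (hy' : Function.Injective y')
    (hz' : ∀ i j, z' (toSub M i j) = x' i + y' j) (h2 : ∀ k : K, k + k = 0)
    (hsum : ∑ s, z' s = ∑ i, x' i + ∑ j, y' j) : IsAkbariAlireza M := by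
  classical
  let _ : Fintype K := Fintype.ofFinite K
  let _ : Module (ZMod 2) K := AddCommGroup.zmodModule (fun k => by rw [two_nsmul, h2])
  let m := Module.finrank (ZMod 2) K
  let e : K ≃ₗ[ZMod 2] (Fin m → ZMod 2) := (Module.finBasis (ZMod 2) K).equivFun
  have hKc : Fintype.card K = n + 2 := by
    rw [← hcard]; exact (Fintype.card_of_bijective hz'b).symm
  have hVc : Fintype.card (Fin m → ZMod 2) = n + 2 := by
    rw [← hKc]; exact (Fintype.card_congr e.toEquiv).symm
  have hnm : n + 2 = 2 ^ m := by
    rw [← hVc]; simp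
  have hm : 2 ≤ m := by
    by_contra hcon
    have : m = 0 ∨ m = 1 := by omega
    rcases this with h | h <;> rw [h] at hnm <;> norm_num at hnm <;> omega
  -- labels in V
  set x : Fin n → (Fin m → ZMod 2) := fun i => e (x' i) with hx
  set y : Fin n → (Fin m → ZMod 2) := fun j => e (y' j) with hy
  have hxi : Function.Injective x := fun a b h => hx' (e.injective h)
  have hyi : Function.Injective y := fun a b h => hy' (e.injective h)
  have hs0 : ∑ i, x i + ∑ j, y j = 0 := by
    have h3 : e (∑ s, z' s) = 0 := by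
      rw [map_sum]
      have hb : Function.Bijective (fun s => e (z' s)) := e.bijective.comp hz'b
      rw [Function.Bijective.sum_comp hb (fun g => g)]
      exact sum_pi_eq_zero hm
    rw [hsum, map_add, map_sum, map_sum] at h3
    exact h3
  have comp : ∀ w : Fin n → (Fin m → ZMod 2), Function.Injective w →
      ∃ r r', r ≠ r' ∧ (∀ g, g ∈ Set.range w ↔ g ≠ r ∧ g ≠ r') ∧ ∑ i, w i = r + r' := by
    intro w hw
    have hc : ((univ.image w)ᶜ).card = 2 := by
      rw [card_compl, hVc, card_image_of_injective _ hw, card_univ, Fintype.card_fin]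
      omega
    obtain ⟨r, r', hrr, hrr'⟩ := card_eq_two.mp hc
    refine ⟨r, r', hrr, ?_, ?_⟩
    · intro g
      have h4 : g ∈ (univ.image w)ᶜ ↔ g = r ∨ g = r' := by
        rw [hrr', mem_insert, mem_singleton]
      rw [mem_compl] at h4
      have h5 : g ∈ Set.range w ↔ g ∈ univ.image w := by simp
      rw [h5, ← not_iff_not, h4]
      tauto
    · have h1 := sum_add_sum_compl (univ.image w) (fun g : Fin m → ZMod 2 => g)
      rw [hrr', sum_pair hrr, sum_pi_eq_zero hm, sum_image (fun a _ b _ h => hw h)] at h1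
      have h6 : (∑ i, w i) + (r + r') = (r + r') + (r + r') := by
        rw [h1, pi_add_self]
      exact add_right_cancel h6
  obtain ⟨r, r', hrr, hr1, hr2⟩ := comp x hxi
  obtain ⟨t, t', htt, ht1, ht2⟩ := comp y hyi
  rw [hr2, ht2] at hs0
  -- r + r' = t + t'
  have hrt : r + r' = t + t' := by
    have : (r + r') + (t + t') = (t + t') + (t + t') := by rw [hs0, pi_add_self]
    exact add_right_cancel this
  set c : Fin m → ZMod 2 := r + t with hc
  have hcc : c + c = 0 := pi_add_self c
  refine ⟨m, x, fun j => y j + c, hm, hnm, hxi, fun a b h => hyi (add_right_cancel h), ?_, ?_⟩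
  · ext g
    have h7 : g ∈ Set.range (fun j => y j + c) ↔ g + c ∈ Set.range y := by
      constructor
      · rintro ⟨j, rfl⟩
        exact ⟨j, by simp only; rw [add_assoc, hcc, add_zero]⟩
      · rintro ⟨j, hj⟩
        exact ⟨j, by simp only; rw [hj, add_assoc, hcc, add_zero]⟩
    rw [hr1, h7, ht1]
    have e1 : g + c = t ↔ g = r := by
      constructor
      · intro h
        have : g + c + c = t + c := by rw [h]
        rw [add_assoc, hcc, add_zero] at this
        rw [this, hc]
        calc t + (r + t) = r + (t + t) := by abel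
          _ = r := by rw [pi_add_self, add_zero]
      · rintro rfl
        rw [hc, ← add_assoc, pi_add_self, zero_add]
    have e2 : g + c = t' ↔ g = r' := by
      have e3 : t' + c = r' := by
        rw [hc]
        calc t' + (r + t) = (t + t') + r := by abel
          _ = (r + r') + r := by rw [hrt]
          _ = r' + (r + r) := by abel
          _ = r' := by rw [pi_add_self, add_zero]
      constructor
      · intro h
        have : g + c + c = t' + c := by rw [h]
        rw [add_assoc, hcc, add_zero] at this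
        rw [this, e3]
      · rintro rfl
        rw [← e3, add_assoc, hcc, add_zero]
    rw [Ne, Ne, Ne, Ne, e1, e2]
  · intro i j i' j'
    have h8 : M i j = M i' j' ↔ toSub M i j = toSub M i' j' :=
      ⟨fun h => Subtype.ext h, fun h => congrArg Subtype.val h⟩
    rw [h8, ← hz'b.1.eq_iff, hz', hz', ← e.injective.eq_iff, map_add, map_add]
    show x i + y j = x i' + y j' ↔ x i + (y j + c) = x i' + (y j' + c)
    rw [← add_assoc (x i) (y j) c, ← add_assoc (x i') (y j') c, add_left_inj]

/-- **Classification.** -/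
theorem classification {n : ℕ} (M : Fin n → Fin n → ℕ) (hM : IsLatin M) {p q : ℕ}
    (hp : 0 < p) (hq : 0 < q) (hpq : n < p + q) (hr : RowsShare M p)
    (hc : RowsShare (fun j i => M i j) q) :
    HasIntegralTransversal M ↔
      ¬ ((symbols M).card = n ∧ HasCyclicLabelling M) ∧ ¬ IsAkbariAlireza M := by
  classical
  constructor
  · intro hI
    exact ⟨fun h => not_integral_of_cyclic M hM h.1 h.2 hI, fun h => not_integral_of_AA M h hI⟩
  · rintro ⟨h1, h2⟩
    rcases Nat.eq_zero_or_pos n with rfl | hn
    · exact ⟨fun _ _ => 0, fun i => i.elim0, fun j => j.elim0, fun s => by left; simp⟩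
    · rcases (le_card_symbols M hn hM).eq_or_lt with hN | hN
      · exact integral_of_not_cyclic hn M hM hN.symm (fun h => h1 ⟨hN.symm, h⟩)
      · by_contra hI
        rw [integral_iff, not_not] at hI
        obtain ⟨G, _, x, y, z, hz, hT⟩ := hI
        have hcs : Fintype.card {s // s ∈ symbols M} = (symbols M).card := Fintype.card_coe _
        rcases label_core hn (toSub M)
          (fun i a b h => hM.1 i (congrArg Subtype.val h))
          (fun j a b h => hM.2 j (congrArg Subtype.val h))
          (fun s => by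
            obtain ⟨s, hs⟩ := s
            have hs' := hs
            rw [symbols, mem_image] at hs'
            obtain ⟨⟨i, j⟩, -, h⟩ := hs'
            exact ⟨i, j, Subtype.ext h⟩)
          x y (fun s => z s.1) hz hp hq hpq (rowOverlap_of_share M hr) (colOverlap_of_share M hc)
          (by rw [hcs]; exact hN) with ⟨T, hT1, hT2⟩ | ⟨g1, K, hK, x', y', z', g2, g3, g4, g5, g6, g7⟩
        · refine hT (T.map (Function.Embedding.subtype _)) ?_ ?_ ?_
          · intro s hs
            rw [mem_map] at hs
            obtain ⟨a, -, rfl⟩ := hs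
            exact a.2
          · rw [card_map, hT1]
          · rw [sum_map]
            exact hT2
        · exact h2 (AA_of_data hn M g1 x' y' z' g2 g3 g4 g5 g6 g7)

end Pool.Agent.MP_318645_int
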