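import Mathlib

set_option autoImplicit false

namespace Pool.Agent.MP_318645_int

open Finset

/-- `M` is a Latin array: no symbol (natural number) is repeated in a row or in a column. -/
def IsLatin {n : ℕ} (M : Fin n → Fin n → ℕ) : Prop :=
  (∀ i, Function.Injective (M i)) ∧ ∀ j, Function.Injective (fun i => M i j)

/-- The set of the symbols which occur in `M`. -/
def symbols {n : ℕ} (M : Fin n → Fin n → ℕ) : Finset ℕ :=
  univ.image (fun p : Fin n × Fin n => M p.1 p.2)

/-- `M` has a transversal. -/
def HasTransversal {n : ℕ} (M : Fin n → Fin n → ℕ) : Prop :=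
  ∃ σ : Equiv.Perm (Fin n), Function.Injective (fun i => M i (σ i))

/-- `M` has an integral (signed) transversal: integers `w i j` with all row sums and all column
sums equal to `1`, such that the total weight of each symbol is `0` or `1`. (With `w ≥ 0` this
would be a transversal.) -/
def HasIntegralTransversal {n : ℕ} (M : Fin n → Fin n → ℕ) : Prop :=
  ∃ w : Fin n → Fin n → ℤ, (∀ i, ∑ j, w i j = 1) ∧ (∀ j, ∑ i, w i j = 1) ∧
    ∀ s : ℕ, (∑ i, ∑ j, if M i j = s then w i j else 0) = 0 ∨
      (∑ i, ∑ j, if M i j = s then w i j else 0) = 1

/-- A label certificate for the absence of transversals: labels of the rows, of the columns and of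
the symbols in some abelian group, such that the label of the symbol in each cell is the sum of
the labels of its row and its column, while no `n` symbols of `M` have label sum
`∑ x i + ∑ y j` (the symbols of a transversal would have this label sum). -/
def HasLabelCertificate {n : ℕ} (M : Fin n → Fin n → ℕ) : Prop :=
  ∃ (G : Type) (_ : AddCommGroup G) (x y : Fin n → G) (z : ℕ → G),
    (∀ i j, z (M i j) = x i + y j) ∧
    ∀ T : Finset ℕ, T ⊆ symbols M → T.card = n → ∑ s ∈ T, z s ≠ ∑ i, x i + ∑ j, y j

/-- `M` is, up to the names of the rows, columns and symbols, the array of Akbari and Alireza: the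
addition table of an elementary abelian `2`-group of order `2 ^ m = n + 2 ≥ 4` without the rows
and the columns of two elements (the same two for rows and columns). -/
def IsAkbariAlireza {n : ℕ} (M : Fin n → Fin n → ℕ) : Prop :=
  ∃ (m : ℕ) (x y : Fin n → (Fin m → ZMod 2)), 2 ≤ m ∧ n + 2 = 2 ^ m ∧
    Function.Injective x ∧ Function.Injective y ∧ Set.range x = Set.range y ∧
    ∀ i j i' j', M i j = M i' j' ↔ x i + y j = x i' + y j'

/-- The classical parity obstruction: `n = 2 ^ a * (odd)`, `a ≥ 1`, and the rows and columns can be
labelled by elements of `ℤ / 2 ^ a` (all of them are row labels) so that the sum of the row label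
and the column label depends only on the symbol in the cell. -/
def HasCyclicLabelling {n : ℕ} (M : Fin n → Fin n → ℕ) : Prop :=
  ∃ (a : ℕ) (x y : Fin n → ZMod (2 ^ a)), 1 ≤ a ∧ (∃ k, n = 2 ^ a * (2 * k + 1)) ∧
    Function.Surjective x ∧ ∀ i j i' j', M i j = M i' j' → x i + y j = x i' + y j'

/-- Any two rows have at least `p` symbols in common. -/
def RowsShare {n : ℕ} (M : Fin n → Fin n → ℕ) (p : ℕ) : Prop :=
  ∀ i i', p ≤ ((univ.image (M i)) ∩ (univ.image (M i'))).card

end Pool.Agent.MP_318645_int
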