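import Pool.Agent.Lib_MP_318645_int.Defs

set_option autoImplicit false

namespace Pool.Agent.MP_318645_int

open Finset

variable {n : ℕ} (M : Fin n → Fin n → ℕ)

theorem mem_symbols (i j : Fin n) : M i j ∈ symbols M :=
  mem_image.mpr ⟨(i, j), mem_univ _, rfl⟩

/-- An integral transversal gives a set of `n` symbols with the right label sum. -/
theorem labels_of_integral (h : HasIntegralTransversal M) {G : Type} [AddCommGroup G]
    (x y : Fin n → G) (z : ℕ → G) (hz : ∀ i j, z (M i j) = x i + y j) :
    ∃ T : Finset ℕ, T ⊆ symbols M ∧ T.card = n ∧ ∑ s ∈ T, z s = ∑ i, x i + ∑ j, y j := by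
  obtain ⟨w, h1, h2, h3⟩ := h
  set W : ℕ → ℤ := fun s => ∑ i, ∑ j, if M i j = s then w i j else 0 with hW
  have key : ∀ (A : Type) [AddCommGroup A] (f : ℕ → A),
      ∑ s ∈ symbols M, W s • f s = ∑ i, ∑ j, w i j • f (M i j) := by
    intro A _ f
    have e1 : ∀ s, W s • f s = ∑ i, ∑ j, if M i j = s then w i j • f (M i j) else 0 := by
      intro s
      rw [hW]
      simp only
      rw [sum_smul]
      refine sum_congr rfl (fun i _ => ?_)
      rw [sum_smul]
      refine sum_congr rfl (fun j _ => ?_)
      by_cases hs : M i j = s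
      · simp [hs]
      · simp [hs]
    simp_rw [e1]
    rw [sum_comm]
    refine sum_congr rfl (fun i _ => ?_)
    rw [sum_comm]
    refine sum_congr rfl (fun j _ => ?_)
    rw [sum_ite_eq, if_pos (mem_symbols M i j)]
  have key2 : ∀ (A : Type) [AddCommGroup A] (f : ℕ → A),
      ∑ s ∈ symbols M, W s • f s = ∑ s ∈ (symbols M).filter (fun s => W s = 1), f s := by
    intro A _ f
    rw [sum_filter]
    refine sum_congr rfl (fun s _ => ?_)
    rcases h3 s with h | h
    · have h' : W s = 0 := h
      simp [h']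
    · have h' : W s = 1 := h
      simp [h']
  refine ⟨(symbols M).filter (fun s => W s = 1), filter_subset _ _, ?_, ?_⟩
  · have e := key ℤ (fun _ => (1 : ℤ))
    rw [key2 ℤ (fun _ => (1 : ℤ))] at e
    simp only [smul_eq_mul, mul_one, sum_const, nsmul_eq_mul, h1, card_univ,
      Fintype.card_fin] at e
    exact_mod_cast e
  · rw [← key2 G z, key G z]
    simp_rw [hz, smul_add, sum_add_distrib]
    congr 1
    · refine sum_congr rfl (fun i _ => ?_)
      rw [← sum_smul, h1, one_smul]
    · rw [sum_comm]
      refine sum_congr rfl (fun j _ => ?_)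
      rw [← sum_smul, h2, one_smul]

/-- The cell vectors. -/
def cellVec (M : Fin n → Fin n → ℕ) (p : Fin n × Fin n) :
    (Fin n → ℤ) × (Fin n → ℤ) × (ℕ → ℤ) :=
  (Pi.single p.1 1, Pi.single p.2 1, Pi.single (M p.1 p.2) 1)

/-- If every labelling allows `n` symbols with the right label sum, there is an integral
transversal. -/
theorem integral_of_labels (h : ¬ HasLabelCertificate M) : HasIntegralTransversal M := by
  classical
  let E := (Fin n → ℤ) × (Fin n → ℤ) × (ℕ → ℤ)
  let Λ : Submodule ℤ E := Submodule.span ℤ (Set.range (cellVec M))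
  let x : Fin n → E ⧸ Λ := fun i => - Λ.mkQ ((Pi.single i 1, 0, 0) : E)
  let y : Fin n → E ⧸ Λ := fun j => - Λ.mkQ ((0, Pi.single j 1, 0) : E)
  let z : ℕ → E ⧸ Λ := fun s => Λ.mkQ ((0, 0, Pi.single s 1) : E)
  have hz : ∀ i j, z (M i j) = x i + y j := by
    intro i j
    have h0 : Λ.mkQ (cellVec M (i, j)) = 0 := by
      rw [Submodule.mkQ_apply, Submodule.Quotient.mk_eq_zero]
      exact Submodule.subset_span ⟨(i, j), rfl⟩
    have h1 : cellVec M (i, j) = ((Pi.single i 1, 0, 0) : E) + ((0, Pi.single j 1, 0) : E)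
        + ((0, 0, Pi.single (M i j) 1) : E) := by
      simp [cellVec]
    rw [h1, map_add, map_add] at h0
    show Λ.mkQ ((0, 0, Pi.single (M i j) 1) : E) = - Λ.mkQ ((Pi.single i 1, 0, 0) : E)
      + - Λ.mkQ ((0, Pi.single j 1, 0) : E)
    rw [eq_neg_of_add_eq_zero_right h0]
    abel
  unfold HasLabelCertificate at h
  push Not at h
  obtain ⟨T, hT1, hT2, hT3⟩ := h (E ⧸ Λ) inferInstance x y z hz
  -- the target vector
  have hmem : ((fun _ => 1, fun _ => 1, fun s => if s ∈ T then 1 else 0) : E) ∈ Λ := by
    rw [← Submodule.Quotient.mk_eq_zero, ← Submodule.mkQ_apply]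
    have e1 : ((fun _ => 1, fun _ => 1, fun s => if s ∈ T then 1 else 0) : E)
        = ∑ i, ((Pi.single i 1, 0, 0) : E) + ∑ j, ((0, Pi.single j 1, 0) : E)
          + ∑ s ∈ T, ((0, 0, Pi.single s 1) : E) := by
      refine Prod.ext ?_ (Prod.ext ?_ ?_)
      · funext a
        simp [Prod.fst_sum, Finset.sum_apply, Pi.single_apply]
      · funext a
        simp [Prod.fst_sum, Prod.snd_sum, Finset.sum_apply, Pi.single_apply]
      · funext a
        simp [Prod.snd_sum, Finset.sum_apply, Pi.single_apply]
    rw [e1, map_add, map_add, map_sum, map_sum, map_sum]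
    have e2 : ∑ s ∈ T, Λ.mkQ ((0, 0, Pi.single s 1) : E) = ∑ i, x i + ∑ j, y j := hT3
    rw [e2]
    show ∑ i, Λ.mkQ ((Pi.single i 1, 0, 0) : E) + ∑ j, Λ.mkQ ((0, Pi.single j 1, 0) : E)
      + (∑ i, - Λ.mkQ ((Pi.single i 1, 0, 0) : E) + ∑ j, - Λ.mkQ ((0, Pi.single j 1, 0) : E)) = 0
    rw [sum_neg_distrib, sum_neg_distrib]
    abel
  obtain ⟨c, hc⟩ := (Submodule.mem_span_range_iff_exists_fun ℤ).mp hmem
  refine ⟨fun i j => c (i, j), ?_, ?_, ?_⟩
  · intro i
    have := congrFun (congrArg Prod.fst hc) i
    simp only [cellVec, Prod.fst_sum, Prod.smul_fst, Finset.sum_apply, Pi.smul_apply,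
      Pi.single_apply, smul_eq_mul, mul_ite, mul_one, mul_zero] at this
    rw [Fintype.sum_prod_type] at this
    have e : (∑ x, ∑ y, if i = (x, y).1 then c (x, y) else 0) = ∑ j, c (i, j) := by
      rw [sum_eq_single i]
      · simp
      · intro b _ hb
        refine sum_eq_zero (fun j _ => ?_)
        rw [if_neg (Ne.symm hb)]
      · intro hcon
        exact absurd (mem_univ i) hcon
    rw [e] at this
    exact this
  · intro j
    have := congrFun (congrArg (fun v => v.2.1) hc) j
    simp only [cellVec, Prod.fst_sum, Prod.snd_sum, Prod.smul_fst, Prod.smul_snd,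
      Finset.sum_apply, Pi.smul_apply,
      Pi.single_apply, smul_eq_mul, mul_ite, mul_one, mul_zero] at this
    rw [Fintype.sum_prod_type] at this
    rw [← this]
    refine sum_congr rfl (fun i _ => ?_)
    rw [sum_ite_eq, if_pos (mem_univ j)]
  · intro s
    have := congrFun (congrArg (fun v => v.2.2) hc) s
    simp only [cellVec, Prod.snd_sum, Prod.smul_snd,
      Finset.sum_apply, Pi.smul_apply,
      Pi.single_apply, smul_eq_mul, mul_ite, mul_one, mul_zero] at this
    rw [Fintype.sum_prod_type] at this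
    have e : (∑ i, ∑ j, if M i j = s then c (i, j) else 0)
        = ∑ i, ∑ j, if s = M i j then c (i, j) else 0 := by
      refine sum_congr rfl (fun i _ => sum_congr rfl (fun j _ => ?_))
      by_cases hs : M i j = s
      · rw [if_pos hs, if_pos hs.symm]
      · rw [if_neg hs, if_neg (Ne.symm hs)]
    rw [e, this]
    by_cases hs : s ∈ T
    · right; simp [hs]
    · left; simp [hs]

theorem integral_iff : HasIntegralTransversal M ↔ ¬ HasLabelCertificate M := by
  constructor
  · rintro h ⟨G, _, x, y, z, hz, hT⟩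
    obtain ⟨T, h1, h2, h3⟩ := labels_of_integral M h x y z hz
    exact hT T h1 h2 h3
  · exact integral_of_labels M

theorem integral_of_transversal (h : HasTransversal M) : HasIntegralTransversal M := by
  obtain ⟨σ, hσ⟩ := h
  refine ⟨fun i j => if σ i = j then 1 else 0, ?_, ?_, ?_⟩
  · intro i
    simp
  · intro j
    have : (∑ i, if σ i = j then (1 : ℤ) else 0) = ∑ i, if i = σ.symm j then (1 : ℤ) else 0 := by
      refine sum_congr rfl (fun i _ => ?_)
      have : σ i = j ↔ i = σ.symm j := by
        rw [Equiv.eq_symm_apply]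
      simp [this]
    rw [this]
    simp
  · intro s
    have e : (∑ i, ∑ j, if M i j = s then (if σ i = j then (1 : ℤ) else 0) else 0)
        = ((univ.filter (fun i => M i (σ i) = s)).card : ℤ) := by
      rw [card_filter]
      push_cast
      refine sum_congr rfl (fun i _ => ?_)
      rw [sum_eq_single (σ i)]
      · simp
      · intro b _ hb
        rw [if_neg (Ne.symm hb)]
        simp
      · intro hcon
        exact absurd (mem_univ _) hcon
    have h1 : (univ.filter (fun i => M i (σ i) = s)).card ≤ 1 := by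
      rw [card_le_one]
      intro a ha b hb
      rw [mem_filter] at ha hb
      exact hσ (by
        show M a (σ a) = M b (σ b)
        rw [ha.2, hb.2])
    rw [e]
    have h2 : (univ.filter (fun i => M i (σ i) = s)).card = 0 ∨
      (univ.filter (fun i => M i (σ i) = s)).card = 1 := by omega
    rcases h2 with h2 | h2
    · left; rw [h2]; rfl
    · right; rw [h2]; rfl

end Pool.Agent.MP_318645_int
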