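import Mathlib

set_option autoImplicit false

namespace Pool.Agent.MP_318645_int

open Finset

/-- In a finite abelian group of order `M`, every element is a sum of `C` distinct elements, if
`3 ≤ C < M / 2`. -/
theorem exists_subset_sum {K : Type*} [AddCommGroup K] [Fintype K] [DecidableEq K]
    (C : ℕ) (hC : 3 ≤ C) (hM : 2 * C < Fintype.card K) (κ : K) :
    ∃ U : Finset K, U.card = C ∧ ∑ u ∈ U, u = κ := by
  classical
  -- the final step: a set `W` of size `C - 2` and a good `k`
  have fin : ∀ (W : Finset K) (k : K), W.card = C - 2 → k ∉ W → (κ - ∑ u ∈ W, u) - k ∉ W →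
      k + k ≠ κ - ∑ u ∈ W, u → ∃ U : Finset K, U.card = C ∧ ∑ u ∈ U, u = κ := by
    intro W k hW hk hk' hkk
    have hne : k ≠ (κ - ∑ u ∈ W, u) - k := by
      intro h
      apply hkk
      nth_rewrite 2 [h]
      abel
    have h1 : k ∉ insert ((κ - ∑ u ∈ W, u) - k) W := by
      rw [mem_insert, not_or]
      exact ⟨hne, hk⟩
    refine ⟨insert k (insert ((κ - ∑ u ∈ W, u) - k) W), ?_, ?_⟩
    · rw [card_insert_of_notMem h1, card_insert_of_notMem hk', hW]
      omega
    · rw [sum_insert h1, sum_insert hk']
      abel
  -- counting
  have cnt : ∀ (W : Finset K) (s : K), W.card = C - 2 →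
      4 < (univ.filter (fun k => k ∉ W ∧ s - k ∉ W)).card := by
    intro W s hW
    have hsub : (univ : Finset K) ⊆
        (univ.filter (fun k => k ∉ W ∧ s - k ∉ W)) ∪ (W ∪ W.image (fun w => s - w)) := by
      intro k _
      by_cases h1 : k ∈ W
      · simp [h1]
      · by_cases h2 : s - k ∈ W
        · rw [mem_union, mem_union]
          right; right
          rw [mem_image]
          exact ⟨s - k, h2, by abel⟩
        · rw [mem_union]
          left
          simp [h1, h2]
    have h1 := card_le_card hsub
    have h2 := card_union_le (univ.filter (fun k => k ∉ W ∧ s - k ∉ W)) (W ∪ W.image (fun w => s - w))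
    have h3 := card_union_le W (W.image (fun w => s - w))
    have h4 : (W.image (fun w => s - w)).card ≤ W.card := card_image_le
    rw [card_univ] at h1
    omega
  by_cases hsurj : Function.Surjective (fun g : K => g + g)
  · -- odd order: doubling is injective
    have hinj : Function.Injective (fun g : K => g + g) := Finite.injective_iff_surjective.mpr hsurj
    obtain ⟨W, -, hW⟩ := exists_subset_card_eq (s := (univ : Finset K)) (n := C - 2)
      (by rw [card_univ]; omega)
    have h4 := cnt W (κ - ∑ u ∈ W, u) hW
    have h5 : ∃ k ∈ univ.filter (fun k => k ∉ W ∧ (κ - ∑ u ∈ W, u) - k ∉ W),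
        k + k ≠ κ - ∑ u ∈ W, u := by
      by_contra hcon
      push Not at hcon
      have : (univ.filter (fun k => k ∉ W ∧ (κ - ∑ u ∈ W, u) - k ∉ W)).card ≤ 1 := by
        rw [card_le_one]
        intro a ha b hb
        exact hinj (by
          show a + a = b + b
          rw [hcon a ha, hcon b hb])
      omega
    obtain ⟨k, hk, hkk⟩ := h5
    rw [mem_filter] at hk
    exact fin W k hW hk.2.1 hk.2.2 hkk
  · -- even order
    unfold Function.Surjective at hsurj
    push Not at hsurj
    obtain ⟨g0, hg0⟩ := hsurj
    obtain ⟨W', -, hW'⟩ := exists_subset_card_eq (s := (univ : Finset K)) (n := C - 3)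
      (by rw [card_univ]; omega)
    set e : K := κ - ∑ u ∈ W', u with he
    -- bad elements
    set D2 : Finset K := univ.image (fun g : K => g + g) with hD2
    have hD : 2 * D2.card ≤ Fintype.card K := by
      have hdis : Disjoint D2 (D2.image (fun d => g0 + d)) := by
        rw [disjoint_left]
        intro a ha hb
        rw [mem_image] at hb
        obtain ⟨d, hd, rfl⟩ := hb
        rw [hD2, mem_image] at hd ha
        obtain ⟨u, -, rfl⟩ := hd
        obtain ⟨v, -, hv⟩ := ha
        apply hg0 (v - u)
        have : g0 = (v + v) - (u + u) := by rw [hv]; abel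
        rw [this]; abel
      have h1 := card_union_of_disjoint hdis
      rw [card_image_of_injective _ (add_right_injective g0)] at h1
      have h2 : (D2 ∪ D2.image (fun d => g0 + d)).card ≤ Fintype.card K := card_le_univ _
      omega
    have hex : ∃ w : K, w ∉ W' ∧ e - w ∉ D2 := by
      by_contra hcon
      push Not at hcon
      have hsub : (univ : Finset K) ⊆ W' ∪ D2.image (fun d => e - d) := by
        intro w _
        by_cases hw : w ∈ W'
        · simp [hw]
        · rw [mem_union, mem_image]
          right
          exact ⟨e - w, hcon w hw, by abel⟩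
      have h1 := card_le_card hsub
      have h2 := card_union_le W' (D2.image (fun d => e - d))
      have h3 : (D2.image (fun d => e - d)).card ≤ D2.card := card_image_le
      rw [card_univ] at h1
      omega
    obtain ⟨w, hw, hwe⟩ := hex
    have hWc : (insert w W').card = C - 2 := by
      rw [card_insert_of_notMem hw, hW']
      omega
    have hsum : κ - ∑ u ∈ insert w W', u = e - w := by
      rw [sum_insert hw, he]; abel
    have h4 := cnt (insert w W') (κ - ∑ u ∈ insert w W', u) hWc
    have h5 : (univ.filter (fun k => k ∉ insert w W' ∧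
        (κ - ∑ u ∈ insert w W', u) - k ∉ insert w W')).Nonempty := by
      rw [← card_pos]; omega
    obtain ⟨k, hk⟩ := h5
    rw [mem_filter] at hk
    refine fin (insert w W') k hWc hk.2.1 hk.2.2 ?_
    intro hkk
    apply hwe
    rw [hD2, mem_image]
    exact ⟨k, mem_univ _, by rw [← hsum, ← hkk]⟩

theorem exists_pair_sum {K : Type*} [AddCommGroup K] [Fintype K] [DecidableEq K] (κ : K) :
    (∃ U : Finset K, U.card = 2 ∧ ∑ u ∈ U, u = κ) ∨ (κ = 0 ∧ ∀ k : K, k + k = 0) := by
  by_cases h : ∀ k : K, k + k = κ
  · right
    have h0 : κ = 0 := by rw [← h 0, add_zero]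
    exact ⟨h0, fun k => by rw [h k, h0]⟩
  · left
    push Not at h
    obtain ⟨k, hk⟩ := h
    have hne : k ≠ κ - k := by
      intro h'
      apply hk
      nth_rewrite 2 [h']
      abel
    exact ⟨{k, κ - k}, card_pair hne, by rw [sum_pair hne]; abel⟩

/-- If two different symbols have the same label, and all labels occur, then every element is the
label sum of some set of `n` symbols. -/
theorem exists_sum_of_repeated {S K : Type*} [Fintype S] [DecidableEq S] [AddCommGroup K]
    [Finite K] (z : S → K) (hz : Function.Surjective z) (p q : S) (hpq : p ≠ q)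
    (h : z p = z q) (n : ℕ) (hn : 1 ≤ n) (hn' : n < Fintype.card S) (τ : K) :
    ∃ T : Finset S, T.card = n ∧ ∑ s ∈ T, z s = τ := by
  classical
  -- a set containing `p` and not `q`
  obtain ⟨T0, hT1, hT2, hT3⟩ := exists_subsuperset_card_eq
    (s := ({p} : Finset S)) (t := (univ : Finset S).erase q) (n := n)
    (by
      intro a ha
      rw [mem_singleton] at ha
      subst ha
      exact mem_erase.mpr ⟨hpq, mem_univ _⟩)
    (by simpa using hn)
    (by
      rw [card_erase_of_mem (mem_univ q), card_univ]
      omega)
  have hpT : p ∈ T0 := hT1 (mem_singleton_self p)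
  have hqT : q ∉ T0 := fun hq => (mem_erase.mp (hT2 hq)).1 rfl
  set d : K := τ - ∑ s ∈ T0, z s with hd
  by_cases hex : ∃ u ∈ T0, ∃ v, v ∉ T0 ∧ z v = z u + d
  · obtain ⟨u, hu, v, hv, huv⟩ := hex
    have hv' : v ∉ T0.erase u := fun h' => hv (mem_of_mem_erase h')
    refine ⟨insert v (T0.erase u), ?_, ?_⟩
    · rw [card_insert_of_notMem hv', card_erase_of_mem hu, hT3]
      omega
    · rw [sum_insert hv', huv]
      have h1 : z u + ∑ s ∈ T0.erase u, z s = ∑ s ∈ T0, z s := add_sum_erase T0 z hu
      calc z u + d + ∑ s ∈ T0.erase u, z s = (z u + ∑ s ∈ T0.erase u, z s) + d := by abel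
        _ = τ := by rw [h1, hd]; abel
  · exfalso
    push Not at hex
    have key : ∀ j : ℕ, ∀ v, z v = z p + (j + 1) • d → v ∈ T0 := by
      intro j
      induction j with
      | zero =>
        intro v hv
        by_contra hvT
        exact hex p hpT v hvT (by rw [hv]; simp)
      | succ j ih =>
        intro v hv
        obtain ⟨u, hu⟩ := hz (z p + (j + 1) • d)
        have huT := ih u hu
        by_contra hvT
        refine hex u huT v hvT ?_
        rw [hv, hu, succ_nsmul d (j + 1), add_assoc]
    have hpos : 0 < addOrderOf d := addOrderOf_pos d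
    apply hqT
    apply key (addOrderOf d - 1) q
    rw [Nat.sub_add_cancel hpos, addOrderOf_nsmul_eq_zero, add_zero, h]

end Pool.Agent.MP_318645_int
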