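import Pool.Agent.Lib_MP_318645_int.GroupSums

set_option autoImplicit false

namespace Pool.Agent.MP_318645_int

open Finset

section
variable {n : ℕ} {S G : Type*} [AddCommGroup G]
  (L : Fin n → Fin n → S) (x y : Fin n → G) (z : S → G)

/-- Differences of row labels. -/
def DX (x : Fin n → G) : Set G := {t | ∃ i i', x i' = x i + t}

theorem DX_zero (hn : 0 < n) (x : Fin n → G) : (0 : G) ∈ DX x := ⟨⟨0, hn⟩, ⟨0, hn⟩, by simp⟩

theorem DX_neg (x : Fin n → G) {t : G} (ht : t ∈ DX x) : -t ∈ DX x := by
  obtain ⟨i, i', h⟩ := ht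
  exact ⟨i', i, by rw [h]; abel⟩

/-- Overlap of rows: at least `p` common symbols. -/
def RowOverlap [DecidableEq S] (L : Fin n → Fin n → S) (p : ℕ) : Prop :=
  ∀ i i', p ≤ (univ.filter (fun j => ∃ j', L i' j' = L i j)).card

theorem row_shift [DecidableEq S] [DecidableEq G] (hz : ∀ i j, z (L i j) = x i + y j) {p : ℕ}
    (hp : 0 < p) (hr : RowOverlap L p) {t : G} (ht : t ∈ DX x) :
    t ∈ DX y ∧ p ≤ (univ.filter (fun j => ∃ j', y j' = y j + t)).card := by
  obtain ⟨i, i', h⟩ := ht
  have key : p ≤ (univ.filter (fun j => ∃ j', y j' = y j + t)).card := by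
    refine le_trans (hr i' i) (card_le_card ?_)
    intro j hj
    rw [mem_filter] at hj ⊢
    obtain ⟨-, j', hj'⟩ := hj
    refine ⟨mem_univ _, j', ?_⟩
    have h1 := hz i j'
    rw [hj', hz i' j, h] at h1
    have : x i + y j' = x i + (y j + t) := by rw [← h1]; abel
    exact add_left_cancel this
  refine ⟨?_, key⟩
  have : (univ.filter (fun j => ∃ j', y j' = y j + t)).Nonempty := by
    rw [← card_pos]; omega
  obtain ⟨j, hj⟩ := this
  rw [mem_filter] at hj
  exact ⟨j, hj.2⟩

theorem add_mem_DX [DecidableEq S] (hz : ∀ i j, z (L i j) = x i + y j) {q : ℕ}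
    (hq : n < 2 * q) (hc : RowOverlap (fun j i => L i j) q) {t t' : G}
    (ht : t ∈ DX y) (ht' : t' ∈ DX y) : t + t' ∈ DX x := by
  obtain ⟨j', j, h⟩ := ht
  obtain ⟨k', k, h'⟩ := ht'
  -- rows `i'` whose symbol in column `j'` occurs in column `j`
  have h1 : q ≤ (univ.filter (fun i => ∃ i', L i' j = L i j')).card := hc j' j
  have h2 : q ≤ (univ.filter (fun i => ∃ i', L i' k' = L i k)).card := hc k k'
  have hne : ((univ.filter (fun i => ∃ i', L i' j = L i j')) ∩
      (univ.filter (fun i => ∃ i', L i' k' = L i k))).Nonempty := by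
    rw [← card_pos]
    have h3 := card_union_add_card_inter (univ.filter (fun i => ∃ i', L i' j = L i j'))
      (univ.filter (fun i => ∃ i', L i' k' = L i k))
    have h4 : ((univ.filter (fun i => ∃ i', L i' j = L i j')) ∪
      (univ.filter (fun i => ∃ i', L i' k' = L i k))).card ≤ n := by
      refine le_trans (card_le_univ _) ?_
      simp
    omega
  obtain ⟨i, hi⟩ := hne
  rw [mem_inter, mem_filter, mem_filter] at hi
  obtain ⟨⟨-, i1, h5⟩, ⟨-, i2, h6⟩⟩ := hi
  -- x i1 + y j = x i + y j' ; x i2 + y k' = x i + y k
  have e1 : x i1 + y j = x i + y j' := by rw [← hz, ← hz, h5]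
  have e2 : x i2 + y k' = x i + y k := by rw [← hz, ← hz, h6]
  refine ⟨i1, i2, ?_⟩
  -- x i2 = x i + y k - y k' = x i + t' ; x i = x i1 + y j - y j' = x i1 + t
  have e3 : x i = x i1 + t := by
    have : x i + y j' = (x i1 + t) + y j' := by rw [← e1, h]; abel
    exact add_right_cancel this
  have e4 : x i2 = x i + t' := by
    have : x i2 + y k' = (x i + t') + y k' := by rw [e2, h']; abel
    exact add_right_cancel this
  rw [e4, e3, add_assoc]

end

section finite
variable {n : ℕ} {S K : Type*} [AddCommGroup K] [Fintype K] [DecidableEq K]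

theorem card_image_ge (x : Fin n → K) {q : ℕ}
    (hx : ∀ t : K, q ≤ (univ.filter (fun i => ∃ i', x i' = x i + t)).card) :
    q * Fintype.card K ≤ n * (univ.image x).card := by
  have h1 : ∑ t : K, (univ.filter (fun i => ∃ i', x i' = x i + t)).card
      = ∑ i : Fin n, (univ.filter (fun t : K => ∃ i', x i' = x i + t)).card := by
    simp_rw [card_filter]
    rw [sum_comm]
  have h2 : ∀ i : Fin n, (univ.filter (fun t : K => ∃ i', x i' = x i + t)).card
      = (univ.image x).card := by
    intro i
    have : (univ.filter (fun t : K => ∃ i', x i' = x i + t)).image (fun t => x i + t)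
        = univ.image x := by
      ext g
      simp only [mem_image, mem_filter, mem_univ, true_and]
      constructor
      · rintro ⟨t, ⟨i', h⟩, rfl⟩
        exact ⟨i', h⟩
      · rintro ⟨i', rfl⟩
        exact ⟨x i' - x i, ⟨i', by abel⟩, by abel⟩
    rw [← this, card_image_of_injective _ (add_right_injective (x i))]
  simp_rw [h2] at h1
  rw [sum_const, card_univ, Fintype.card_fin, smul_eq_mul] at h1
  rw [← h1]
  calc q * Fintype.card K = ∑ _t : K, q := by
        rw [sum_const, card_univ, smul_eq_mul, mul_comm]
    _ ≤ _ := sum_le_sum (fun t _ => hx t)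

theorem exists_add_eq (x y : Fin n → K) {p q : ℕ} (hpq : n < p + q)
    (hx : ∀ t : K, q ≤ (univ.filter (fun i => ∃ i', x i' = x i + t)).card)
    (hy : ∀ t : K, p ≤ (univ.filter (fun j => ∃ j', y j' = y j + t)).card) (k : K) :
    ∃ i j, x i + y j = k := by
  have h1 := card_image_ge x hx
  have h2 := card_image_ge y hy
  have hK : 0 < Fintype.card K := Fintype.card_pos
  have h3 : Fintype.card K < (univ.image x).card + (univ.image y).card := by
    by_contra hcon
    push Not at hcon
    have : n * ((univ.image x).card + (univ.image y).card) ≤ n * Fintype.card K :=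
      Nat.mul_le_mul_left _ hcon
    have h4 : (p + q) * Fintype.card K ≤ n * Fintype.card K := by nlinarith
    have h5 := Nat.le_of_mul_le_mul_right h4 hK
    omega
  have h4 : ((univ.image x) ∩ ((univ.image y).image (fun g => k - g))).Nonempty := by
    rw [← card_pos]
    have h5 := card_union_add_card_inter (univ.image x) ((univ.image y).image (fun g => k - g))
    have h6 : ((univ.image x) ∪ ((univ.image y).image (fun g => k - g))).card
        ≤ Fintype.card K := card_le_univ _
    rw [card_image_of_injective _ (sub_right_injective)] at h5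
    omega
  obtain ⟨g, hg⟩ := h4
  rw [mem_inter, mem_image, mem_image] at hg
  obtain ⟨⟨i, -, hi⟩, g', hg', hgg⟩ := hg
  rw [mem_image] at hg'
  obtain ⟨j, -, hj⟩ := hg'
  exact ⟨i, j, by rw [hi, ← hgg, hj]; abel⟩

/-- **The finite core.** -/
theorem finite_core [Fintype S] [DecidableEq S] (hn : 0 < n) (L : Fin n → Fin n → S)
    (hLr : ∀ i, Function.Injective (L i)) (hLc : ∀ j, Function.Injective (fun i => L i j))
    (x y : Fin n → K) (z : S → K) (hz : ∀ i j, z (L i j) = x i + y j)
    {p q : ℕ} (hpq : n < p + q)
    (hx : ∀ t : K, q ≤ (univ.filter (fun i => ∃ i', x i' = x i + t)).card)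
    (hy : ∀ t : K, p ≤ (univ.filter (fun j => ∃ j', y j' = y j + t)).card)
    (hN : n < Fintype.card S) :
    (∃ T : Finset S, T.card = n ∧ ∑ s ∈ T, z s = ∑ i, x i + ∑ j, y j) ∨
    (Fintype.card S = n + 2 ∧ Function.Bijective z ∧ Function.Injective x ∧
      Function.Injective y ∧ (∀ k : K, k + k = 0) ∧ ∑ k : K, k = ∑ i, x i + ∑ j, y j) := by
  classical
  have hzs : Function.Surjective z := by
    intro k
    obtain ⟨i, j, h⟩ := exists_add_eq x y hpq hx hy k
    exact ⟨L i j, by rw [hz, h]⟩
  by_cases hzi : Function.Injective z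
  swap
  · left
    unfold Function.Injective at hzi
    push Not at hzi
    obtain ⟨s, s', h1, h2⟩ := hzi
    exact exists_sum_of_repeated z hzs s s' h2 h1 n hn hN _
  · have hbij : Function.Bijective z := ⟨hzi, hzs⟩
    have hcard : Fintype.card S = Fintype.card K := Fintype.card_of_bijective hbij
    have hxi : Function.Injective x := by
      intro i i' h
      have j : Fin n := ⟨0, hn⟩
      apply hLc j
      apply hzi
      show z (L i j) = z (L i' j)
      rw [hz, hz, h]
    have hyi : Function.Injective y := by
      intro j j' h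
      have i : Fin n := ⟨0, hn⟩
      apply hLr i
      apply hzi
      rw [hz, hz, h]
    -- n > |K| / 2
    have h1 := card_image_ge x hx
    have h2 := card_image_ge y hy
    rw [card_image_of_injective _ hxi, card_univ, Fintype.card_fin] at h1
    rw [card_image_of_injective _ hyi, card_univ, Fintype.card_fin] at h2
    have hK : 0 < Fintype.card K := Fintype.card_pos
    have h3 : Fintype.card K < 2 * n := by
      by_contra hcon
      push Not at hcon
      have h4 : n * Fintype.card K < (p + q) * Fintype.card K :=
        Nat.mul_lt_mul_of_pos_right hpq hK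
      have h5 : n * (2 * n) ≤ n * Fintype.card K := Nat.mul_le_mul_left _ hcon
      nlinarith
    -- complement
    have compl : ∀ U : Finset K, U.card = Fintype.card K - n →
        ∑ u ∈ U, u = ∑ k : K, k - (∑ i, x i + ∑ j, y j) →
        ∃ T : Finset S, T.card = n ∧ ∑ s ∈ T, z s = ∑ i, x i + ∑ j, y j := by
      intro U hU hU'
      refine ⟨univ.filter (fun s => z s ∉ U), ?_, ?_⟩
      · have : (univ.filter (fun s => z s ∉ U)).card = (Uᶜ).card := by
          rw [← card_image_of_injective _ hzi]
          congr 1
          ext k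
          simp only [mem_image, mem_filter, mem_univ, true_and, mem_compl]
          constructor
          · rintro ⟨s, h, rfl⟩; exact h
          · intro h
            obtain ⟨s, rfl⟩ := hzs k
            exact ⟨s, h, rfl⟩
        rw [this, card_compl, hU]
        omega
      · have h6 : ∑ s ∈ univ.filter (fun s => z s ∉ U), z s = ∑ k ∈ Uᶜ, k := by
          have : (univ.filter (fun s => z s ∉ U)).image z = Uᶜ := by
            ext k
            simp only [mem_image, mem_filter, mem_univ, true_and, mem_compl]
            constructor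
            · rintro ⟨s, h, rfl⟩; exact h
            · intro h
              obtain ⟨s, rfl⟩ := hzs k
              exact ⟨s, h, rfl⟩
          rw [← this, sum_image (fun a _ b _ h => hzi h)]
        have h7 := sum_add_sum_compl U (fun k : K => k)
        rw [h6, eq_sub_of_add_eq' h7, hU']
        abel
    have hC : Fintype.card K - n = 1 ∨ Fintype.card K - n = 2 ∨ 3 ≤ Fintype.card K - n := by
      omega
    rcases hC with hC | hC | hC
    · left
      exact compl {∑ k : K, k - (∑ i, x i + ∑ j, y j)} (by rw [card_singleton, hC])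
        (by rw [sum_singleton])
    · rcases exists_pair_sum (∑ k : K, k - (∑ i, x i + ∑ j, y j)) with ⟨U, hU1, hU2⟩ | ⟨h8, h9⟩
      · left
        exact compl U (by rw [hU1, hC]) hU2
      · right
        refine ⟨by omega, hbij, hxi, hyi, h9, ?_⟩
        exact sub_eq_zero.mp h8
    · left
      obtain ⟨U, hU1, hU2⟩ := exists_subset_sum (Fintype.card K - n) hC (by omega)
        (∑ k : K, k - (∑ i, x i + ∑ j, y j))
      exact compl U hU1 hU2

end finite

end Pool.Agent.MP_318645_int
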