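import Pool.Agent.Lib_MP_318645_int.Labels

set_option autoImplicit false

namespace Pool.Agent.MP_318645_int

open Finset

/-- Labels in an arbitrary abelian group can be moved, by two translations, into a finite
subgroup `K` such that every element of `K` is a popular difference of rows and of columns. -/
theorem reduce_to_finite {n : ℕ} {S G : Type*} [AddCommGroup G] [DecidableEq G] [DecidableEq S] (hn : 0 < n)
    (L : Fin n → Fin n → S) (hs : ∀ s, ∃ i j, L i j = s)
    (x y : Fin n → G) (z : S → G) (hz : ∀ i j, z (L i j) = x i + y j)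
    {p q : ℕ} (hp : 0 < p) (hq : 0 < q) (hpq : n < p + q)
    (hr : RowOverlap L p) (hc : RowOverlap (fun j i => L i j) q) :
    ∃ (K : AddSubgroup G) (x' y' : Fin n → K) (z' : S → K) (gx gy : G), Finite K ∧
      (∀ i, (x' i : G) = x i - gx) ∧ (∀ j, (y' j : G) = y j - gy) ∧
      (∀ s, (z' s : G) = z s - gx - gy) ∧ (∀ i j, z' (L i j) = x' i + y' j) ∧
      (∀ t : K, ∃ i i', x' i' = x' i + t) ∧ (∀ t : K, ∃ j j', y' j' = y' j + t) ∧
      (∀ t : K, q ≤ (univ.filter (fun i => ∃ i', x' i' = x' i + t)).card) ∧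
      (∀ t : K, p ≤ (univ.filter (fun j => ∃ j', y' j' = y' j + t)).card) := by
  have hz' : ∀ j i, z ((fun j i => L i j) j i) = y j + x i := fun j i => by
    show z (L i j) = _
    rw [hz, add_comm]
  have rx : ∀ t, t ∈ DX x → t ∈ DX y ∧
      p ≤ (univ.filter (fun j => ∃ j', y j' = y j + t)).card :=
    fun t ht => row_shift L x y z hz hp hr ht
  have ry : ∀ t, t ∈ DX y → t ∈ DX x ∧
      q ≤ (univ.filter (fun j => ∃ j', x j' = x j + t)).card :=
    fun t ht => row_shift (fun j i => L i j) y x z hz' hq hc ht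
  have hadd : ∀ t t', t ∈ DX x → t' ∈ DX x → t + t' ∈ DX x := by
    intro t t' ht ht'
    by_cases h : n < 2 * q
    · exact add_mem_DX L x y z hz h hc (rx t ht).1 (rx t' ht').1
    · have h2 : n < 2 * p := by omega
      exact (ry _ (add_mem_DX (fun j i => L i j) y x z hz' h2 hr ht ht')).1
  let K : AddSubgroup G :=
    { carrier := DX x
      add_mem' := fun {a b} ha hb => hadd a b ha hb
      zero_mem' := DX_zero hn x
      neg_mem' := fun {a} ha => DX_neg x ha }
  have hKmem : ∀ t, t ∈ K ↔ t ∈ DX x := fun t => Iff.rfl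
  let i0 : Fin n := ⟨0, hn⟩
  have hx0 : ∀ i, x i - x i0 ∈ K := fun i => ⟨i0, i, by abel⟩
  have hy0 : ∀ j, y j - y i0 ∈ K := fun j => (ry _ ⟨i0, j, by abel⟩).1
  have hz0 : ∀ s, z s - x i0 - y i0 ∈ K := by
    intro s
    obtain ⟨i, j, rfl⟩ := hs s
    have : z (L i j) - x i0 - y i0 = (x i - x i0) + (y j - y i0) := by rw [hz]; abel
    rw [this]
    exact K.add_mem (hx0 i) (hy0 j)
  have hKfin : Finite K := by
    have hfin : (DX x).Finite := by
      have : DX x ⊆ Set.range (fun pr : Fin n × Fin n => x pr.2 - x pr.1) := by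
        rintro t ⟨i, i', h⟩
        exact ⟨(i, i'), by simp [h]⟩
      exact (Set.finite_range _).subset this
    exact hfin.to_subtype
  refine ⟨K, fun i => ⟨x i - x i0, hx0 i⟩, fun j => ⟨y j - y i0, hy0 j⟩,
    fun s => ⟨z s - x i0 - y i0, hz0 s⟩, x i0, y i0, hKfin, fun _ => rfl, fun _ => rfl,
    fun _ => rfl, ?_, ?_, ?_, ?_, ?_⟩
  · intro i j
    apply Subtype.ext
    show z (L i j) - x i0 - y i0 = (x i - x i0) + (y j - y i0)
    rw [hz]; abel
  · intro t
    obtain ⟨i, i', h⟩ := t.2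
    refine ⟨i, i', Subtype.ext ?_⟩
    show x i' - x i0 = (x i - x i0) + t
    rw [h]; abel
  · intro t
    obtain ⟨j, j', h⟩ := (rx t.1 t.2).1
    refine ⟨j, j', Subtype.ext ?_⟩
    show y j' - y i0 = (y j - y i0) + t
    rw [h]; abel
  · intro t
    refine le_trans (ry t.1 (rx t.1 t.2).1).2 (card_le_card ?_)
    intro i hi
    rw [mem_filter] at hi ⊢
    obtain ⟨-, i', h⟩ := hi
    refine ⟨mem_univ _, i', Subtype.ext ?_⟩
    show x i' - x i0 = (x i - x i0) + t
    rw [h]; abel
  · intro t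
    refine le_trans (rx t.1 t.2).2 (card_le_card ?_)
    intro j hj
    rw [mem_filter] at hj ⊢
    obtain ⟨-, j', h⟩ := hj
    refine ⟨mem_univ _, j', Subtype.ext ?_⟩
    show y j' - y i0 = (y j - y i0) + t
    rw [h]; abel

/-- **Core theorem for labels in an arbitrary abelian group**, more symbols than rows. -/
theorem label_core {n : ℕ} {S G : Type*} [AddCommGroup G] [Fintype S] [DecidableEq S]
    (hn : 0 < n) (L : Fin n → Fin n → S)
    (hLr : ∀ i, Function.Injective (L i)) (hLc : ∀ j, Function.Injective (fun i => L i j))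
    (hs : ∀ s, ∃ i j, L i j = s)
    (x y : Fin n → G) (z : S → G) (hz : ∀ i j, z (L i j) = x i + y j)
    {p q : ℕ} (hp : 0 < p) (hq : 0 < q) (hpq : n < p + q)
    (hr : RowOverlap L p) (hc : RowOverlap (fun j i => L i j) q) (hN : n < Fintype.card S) :
    (∃ T : Finset S, T.card = n ∧ ∑ s ∈ T, z s = ∑ i, x i + ∑ j, y j) ∨
    (Fintype.card S = n + 2 ∧ ∃ (K : AddSubgroup G) (_ : Finite K) (x' y' : Fin n → K)
      (z' : S → K), Function.Bijective z' ∧ Function.Injective x' ∧
      Function.Injective y' ∧ (∀ i j, z' (L i j) = x' i + y' j) ∧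
      (∀ k : K, k + k = 0) ∧ ∑ s, z' s = ∑ i, x' i + ∑ j, y' j) := by
  classical
  obtain ⟨K, x', y', z', gx, gy, hK, h1, h2, h3, h4, -, -, h5, h6⟩ :=
    reduce_to_finite hn L hs x y z hz hp hq hpq hr hc
  have := hK
  let _ : Fintype K := Fintype.ofFinite K
  rcases finite_core hn L hLr hLc x' y' z' h4 hpq h5 h6 hN with ⟨T, hT1, hT2⟩ | ⟨g1, g2, g3, g4, g5, g6⟩
  · left
    refine ⟨T, hT1, ?_⟩
    have e1 : ∑ s ∈ T, z s = ((∑ s ∈ T, z' s : K) : G) + n • (gx + gy) := by
      rw [AddSubgroup.val_finsetSum]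
      simp_rw [h3]
      rw [← hT1, ← sum_const, ← sum_add_distrib]
      exact sum_congr rfl (fun s _ => by abel)
    have e2 : ∑ i, x i + ∑ j, y j = ((∑ i, x' i + ∑ j, y' j : K) : G) + n • (gx + gy) := by
      rw [AddSubgroup.coe_add, AddSubgroup.val_finsetSum, AddSubgroup.val_finsetSum]
      simp_rw [h1, h2, sum_sub_distrib]
      rw [sum_const, sum_const, card_univ, Fintype.card_fin, nsmul_add]
      abel
    rw [e1, e2, hT2]
  · right
    refine ⟨g1, K, hK, x', y', z', g2, g3, g4, h4, g5, ?_⟩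
    rw [← g6]
    exact Function.Bijective.sum_comp g2 (fun k : K => k)

end Pool.Agent.MP_318645_int
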