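import Pool.Agent.Lib_MP_318645_int.Dual
import Pool.Agent.Lib_MP_318645_int.Reduce

set_option autoImplicit false

namespace Pool.Agent.MP_318645_int

open Finset

/-! ### Basic facts on the set of symbols -/

section basic
variable {n : ℕ} (M : Fin n → Fin n → ℕ)

theorem image_row_subset (i : Fin n) : univ.image (M i) ⊆ symbols M := by
  intro s hs
  rw [mem_image] at hs
  obtain ⟨j, -, rfl⟩ := hs
  exact mem_symbols M i j

theorem card_image_row (hM : IsLatin M) (i : Fin n) : (univ.image (M i)).card = n := by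
  rw [card_image_of_injective _ (hM.1 i), card_univ, Fintype.card_fin]

theorem latin_transpose (hM : IsLatin M) : IsLatin (fun j i => M i j) := ⟨hM.2, hM.1⟩

theorem symbols_transpose : symbols (fun j i => M i j) = symbols M := by
  ext s
  simp only [symbols, mem_image, mem_univ, true_and, Prod.exists]
  constructor
  · rintro ⟨a, b, h⟩; exact ⟨b, a, h⟩
  · rintro ⟨a, b, h⟩; exact ⟨b, a, h⟩

theorem le_card_symbols (hn : 0 < n) (hM : IsLatin M) : n ≤ (symbols M).card := by
  have := card_le_card (image_row_subset M ⟨0, hn⟩)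
  rwa [card_image_row M hM] at this

theorem image_row_eq (hM : IsLatin M) (hN : (symbols M).card = n) (i : Fin n) :
    univ.image (M i) = symbols M :=
  eq_of_subset_of_card_le (image_row_subset M i) (by rw [card_image_row M hM, hN])

/-- In a Latin square, the symbols of one row are a permutation of those of another row. -/
theorem row_perm (hM : IsLatin M) (hN : (symbols M).card = n) (i i' : Fin n) :
    ∃ σ : Equiv.Perm (Fin n), ∀ j, M i (σ j) = M i' j := by
  have h : ∀ j, ∃ j', M i j' = M i' j := by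
    intro j
    have h1 : M i' j ∈ univ.image (M i) := by
      rw [image_row_eq M hM hN]
      exact mem_symbols M i' j
    rw [mem_image] at h1
    obtain ⟨j', -, h2⟩ := h1
    exact ⟨j', h2⟩
  choose f hf using h
  have hinj : Function.Injective f := by
    intro a b hab
    apply hM.1 i'
    rw [← hf a, ← hf b, hab]
  exact ⟨Equiv.ofBijective f (Finite.injective_iff_bijective.mp hinj), hf⟩

theorem sum_symbols {A : Type*} [AddCommMonoid A] (hM : IsLatin M)
    (hN : (symbols M).card = n) (i : Fin n) (z : ℕ → A) :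
    ∑ s ∈ symbols M, z s = ∑ j, z (M i j) := by
  rw [← image_row_eq M hM hN i, sum_image (fun a _ b _ h => hM.1 i h)]

/-- Rows of an array with `N` symbols share at least `2 n - N` symbols. -/
theorem rowsShare_of_card (hM : IsLatin M) : RowsShare M (2 * n - (symbols M).card) := by
  intro i i'
  have h1 := card_union_add_card_inter (univ.image (M i)) (univ.image (M i'))
  rw [card_image_row M hM, card_image_row M hM] at h1
  have h2 : ((univ.image (M i)) ∪ (univ.image (M i'))).card ≤ (symbols M).card :=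
    card_le_card (union_subset (image_row_subset M i) (image_row_subset M i'))
  omega

/-- The array with values in its set of symbols. -/
def toSub (M : Fin n → Fin n → ℕ) (i j : Fin n) : {s // s ∈ symbols M} := ⟨M i j, mem_symbols M i j⟩

theorem rowOverlap_of_share {p : ℕ} (h : RowsShare M p) :
    RowOverlap (toSub M) p := by
  intro i i'
  refine le_trans (h i i') ?_
  have : (univ.image (M i)) ∩ (univ.image (M i')) ⊆
      (univ.filter (fun j => ∃ j', toSub M i' j' = toSub M i j)).image (M i) := by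
    intro s hs
    rw [mem_inter, mem_image, mem_image] at hs
    obtain ⟨⟨j, -, h1⟩, ⟨j', -, h2⟩⟩ := hs
    rw [mem_image]
    refine ⟨j, ?_, h1⟩
    rw [mem_filter]
    refine ⟨mem_univ _, j', Subtype.ext ?_⟩
    show M i' j' = M i j
    rw [h1, h2]
  exact le_trans (card_le_card this) card_image_le

theorem colOverlap_of_share {q : ℕ} (h : RowsShare (fun j i => M i j) q) :
    RowOverlap (fun j i => toSub M i j) q := by
  intro j j'
  refine le_trans (h j j') ?_
  have : (univ.image (fun i => M i j)) ∩ (univ.image (fun i => M i j')) ⊆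
      (univ.filter (fun i => ∃ i', toSub M i' j' = toSub M i j)).image (fun i => M i j) := by
    intro s hs
    rw [mem_inter, mem_image, mem_image] at hs
    obtain ⟨⟨i, -, h1⟩, ⟨i', -, h2⟩⟩ := hs
    rw [mem_image]
    refine ⟨i, ?_, h1⟩
    rw [mem_filter]
    refine ⟨mem_univ _, i', Subtype.ext ?_⟩
    show M i' j' = M i j
    rw [h1, h2]
  exact le_trans (card_le_card this) card_image_le

end basic

/-! ### Uniform labels -/

theorem uniform {n : ℕ} {K : Type*} [AddCommGroup K] [Fintype K] (x : Fin n → K)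
    (h : ∀ t : K, ∃ σ : Equiv.Perm (Fin n), ∀ i, x (σ i) = x i + t) :
    ∃ k, n = k * Fintype.card K ∧ ∑ i, x i = k • ∑ g : K, g ∧ (0 < n → Function.Surjective x) := by
  classical
  set f : K → ℕ := fun g => (univ.filter (fun i => x i = g)).card with hf
  have hle : ∀ g t, f g ≤ f (g + t) := by
    intro g t
    obtain ⟨σ, hσ⟩ := h t
    refine card_le_card_of_injOn σ ?_ (fun a _ b _ hab => σ.injective hab)
    intro i hi
    simp only [coe_filter, mem_univ, true_and, Set.mem_ofPred_eq] at hi ⊢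
    rw [hσ, hi]
  have hconst : ∀ g, f g = f 0 := by
    intro g
    refine le_antisymm ?_ ?_
    · have := hle g (-g)
      rwa [add_neg_cancel] at this
    · have := hle 0 g
      rwa [zero_add] at this
  refine ⟨f 0, ?_, ?_, ?_⟩
  · have h1 : (univ : Finset (Fin n)).card = ∑ g : K, f g :=
      card_eq_sum_card_fiberwise (fun i _ => by simp)
    rw [card_univ, Fintype.card_fin] at h1
    simp_rw [hconst] at h1
    rw [sum_const, card_univ, smul_eq_mul] at h1
    rw [h1, mul_comm]
  · have h1 : ∑ i, x i = ∑ g : K, ∑ i ∈ univ.filter (fun i => x i = g), x i :=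
      (sum_fiberwise univ x x).symm
    rw [h1, smul_sum]
    refine sum_congr rfl (fun g _ => ?_)
    rw [← hconst g, hf]
    simp only
    rw [← sum_const]
    exact sum_congr rfl (fun i hi => (mem_filter.mp hi).2)
  · intro hn g
    have h1 : 0 < f g := by
      rw [hconst g, ← hconst (x ⟨0, hn⟩)]
      exact card_pos.mpr ⟨⟨0, hn⟩, mem_filter.mpr ⟨mem_univ _, rfl⟩⟩
    obtain ⟨i, hi⟩ := card_pos.mp h1
    exact ⟨i, (mem_filter.mp hi).2⟩

theorem two_nsmul_sum (K : Type*) [AddCommGroup K] [Fintype K] : 2 • ∑ g : K, g = 0 := by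
  have h : ∑ g : K, -g = ∑ g : K, g := Equiv.sum_comp (Equiv.neg K) (fun g : K => g)
  rw [sum_neg_distrib] at h
  rw [two_nsmul]
  nth_rewrite 1 [← h]
  exact neg_add_cancel (∑ g : K, g)

theorem sum_zmod_ne (a : ℕ) (ha : 1 ≤ a) : ∑ g : ZMod (2 ^ a), g ≠ 0 := by
  have : NeZero (2 ^ a) := ⟨by positivity⟩
  have h1 : ∑ g : ZMod (2 ^ a), g = ∑ i ∈ range (2 ^ a), (i : ZMod (2 ^ a)) := by
    refine sum_nbij' (fun g => g.val) (fun i => (i : ZMod (2 ^ a))) ?_ ?_ ?_ ?_ ?_
    · intro g _; exact mem_range.mpr (ZMod.val_lt g)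
    · intro i _; exact mem_univ _
    · intro g _; simp
    · intro i hi; exact ZMod.val_cast_of_lt (mem_range.mp hi)
    · intro g _; simp
  rw [h1, ← Nat.cast_sum, Ne, ZMod.natCast_eq_zero_iff, sum_range_id]
  intro hdiv
  obtain ⟨b, rfl⟩ : ∃ b, a = b + 1 := ⟨a - 1, by omega⟩
  have h2 : 2 ^ (b + 1) * (2 ^ (b + 1) - 1) / 2 = 2 ^ b * (2 ^ (b + 1) - 1) := by
    rw [pow_succ, mul_comm (2 ^ b) 2, mul_assoc, Nat.mul_div_cancel_left _ (by norm_num)]
  rw [h2, pow_succ, Nat.mul_dvd_mul_iff_left (by positivity)] at hdiv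
  have h3 : 1 ≤ 2 ^ b := Nat.one_le_two_pow
  omega

/-- A cyclic `2`-quotient which does not kill a given element of order two. -/
theorem exists_cyclic_quotient (K : Type*) [AddCommGroup K] [Finite K] (δ : K) (h0 : δ ≠ 0)
    (h2 : 2 • δ = 0) : ∃ (a : ℕ) (φ : K →+ ZMod (2 ^ a)), 1 ≤ a ∧ Function.Surjective φ ∧
      φ δ ≠ 0 := by
  classical
  obtain ⟨ι, hι, p, hp, e, ⟨E⟩⟩ := AddCommGroup.equiv_directSum_zmod_of_finite K
  have h3 : E δ ≠ 0 := by
    intro h
    exact h0 ((map_eq_zero_iff E E.injective).mp h)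
  have h4 : ∃ i, E δ i ≠ 0 := by
    by_contra hcon
    push Not at hcon
    exact h3 (DFinsupp.ext (fun i => by simpa using hcon i))
  obtain ⟨i, hi⟩ := h4
  -- the projection
  let ψ : K →+ ZMod (p i ^ e i) :=
    (DirectSum.component ℤ ι (fun i => ZMod (p i ^ e i)) i).toAddMonoidHom.comp E.toAddMonoidHom
  have hψ : ∀ k, ψ k = E k i := fun k => rfl
  have hψs : Function.Surjective ψ := by
    intro c
    refine ⟨E.symm (DirectSum.of (fun i => ZMod (p i ^ e i)) i c), ?_⟩
    rw [hψ, AddEquiv.apply_symm_apply, DirectSum.of_eq_same]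
  have hψδ : ψ δ ≠ 0 := hi
  have h5 : 2 • ψ δ = 0 := by rw [← map_nsmul, h2, map_zero]
  have hpi : p i = 2 := by
    by_contra hne
    apply hψδ
    have hcop : Nat.Coprime 2 (p i ^ e i) := by
      apply Nat.Coprime.pow_right
      rw [Nat.coprime_primes Nat.prime_two (hp i)]
      exact Ne.symm hne
    have hu : IsUnit ((2 : ℕ) : ZMod (p i ^ e i)) :=
      (ZMod.isUnit_iff_coprime 2 (p i ^ e i)).mpr hcop
    rw [nsmul_eq_mul] at h5
    exact (IsUnit.mul_right_eq_zero hu).mp h5
  have H : ∀ (N a : ℕ), N = 2 ^ a → ∀ ψ : K →+ ZMod N, Function.Surjective ψ → ψ δ ≠ 0 →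
      ∃ (a : ℕ) (φ : K →+ ZMod (2 ^ a)), 1 ≤ a ∧ Function.Surjective φ ∧ φ δ ≠ 0 := by
    rintro N a rfl ψ h6 h7
    refine ⟨a, ψ, ?_, h6, h7⟩
    by_contra hcon
    have : a = 0 := by omega
    subst this
    exact h7 (Subsingleton.elim (α := ZMod 1) _ _)
  exact H _ (e i) (by rw [hpi]) ψ hψs hψδ

/-! ### The classical case `N = n` -/

/-- Row labels and column labels are equidistributed (Latin squares). -/
theorem row_label_perm {n : ℕ} (M : Fin n → Fin n → ℕ) (hM : IsLatin M)
    (hN : (symbols M).card = n) {K : Type*} [AddCommGroup K] (x y : Fin n → K)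
    (hxy : ∀ i j i' j', M i j = M i' j' → x i + y j = x i' + y j') (i i' : Fin n) :
    ∃ σ : Equiv.Perm (Fin n), ∀ j, y (σ j) = y j + (x i' - x i) := by
  obtain ⟨σ, hσ⟩ := row_perm M hM hN i i'
  refine ⟨σ, fun j => ?_⟩
  have h := hxy _ _ _ _ (hσ j)
  have : x i + y (σ j) = x i + (y j + (x i' - x i)) := by rw [h]; abel
  exact add_left_cancel this

theorem col_label_perm {n : ℕ} (M : Fin n → Fin n → ℕ) (hM : IsLatin M)
    (hN : (symbols M).card = n) {K : Type*} [AddCommGroup K] (x y : Fin n → K)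
    (hxy : ∀ i j i' j', M i j = M i' j' → x i + y j = x i' + y j') (j j' : Fin n) :
    ∃ σ : Equiv.Perm (Fin n), ∀ i, x (σ i) = x i + (y j' - y j) :=
  row_label_perm (fun j i => M i j) (latin_transpose M hM) (by rw [symbols_transpose, hN]) y x
    (fun a b a' b' h => by rw [add_comm (y a), add_comm (y a')]; exact hxy _ _ _ _ h) j j'

/-- The classical obstruction: such an array has no integral transversal. -/
theorem not_integral_of_cyclic {n : ℕ} (M : Fin n → Fin n → ℕ) (hM : IsLatin M)
    (hN : (symbols M).card = n) (hC : HasCyclicLabelling M) : ¬ HasIntegralTransversal M := by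
  classical
  intro hI
  obtain ⟨a, x, y, ha, ⟨c, hnc⟩, hx, hxy⟩ := hC
  have hn : 0 < n := by rw [hnc]; positivity
  let i0 : Fin n := ⟨0, hn⟩
  -- labels of symbols
  have hz : ∃ z : ℕ → ZMod (2 ^ a), ∀ i j, z (M i j) = x i + y j := by
    refine ⟨fun s => if h : ∃ q : Fin n × Fin n, M q.1 q.2 = s then
      x h.choose.1 + y h.choose.2 else 0, fun i j => ?_⟩
    have h : ∃ q : Fin n × Fin n, M q.1 q.2 = M i j := ⟨(i, j), rfl⟩
    show (if h : ∃ q : Fin n × Fin n, M q.1 q.2 = M i j then
      x h.choose.1 + y h.choose.2 else 0) = _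
    rw [dif_pos h]
    exact hxy _ _ _ _ h.choose_spec
  obtain ⟨z, hz⟩ := hz
  obtain ⟨T, hT1, hT2, hT3⟩ := labels_of_integral M hI x y z hz
  have hT : T = symbols M := eq_of_subset_of_card_le hT1 (by rw [hT2, hN])
  rw [hT, sum_symbols M hM hN i0 z] at hT3
  simp_rw [hz, sum_add_distrib, sum_const, card_univ, Fintype.card_fin] at hT3
  have h1 : n • x i0 = ∑ i, x i := add_right_cancel hT3
  have h2 : n • x i0 = 0 := by
    rw [hnc, nsmul_eq_mul]
    push_cast
    have : ((2 : ZMod (2 ^ a)) ^ a) = 0 := by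
      have := ZMod.natCast_self (2 ^ a)
      push_cast at this
      exact this
    rw [this]; ring
  have : NeZero (2 ^ a) := ⟨by positivity⟩
  -- columns
  have hy : ∀ t, ∃ σ : Equiv.Perm (Fin n), ∀ j, y (σ j) = y j + t := by
    intro t
    obtain ⟨i, hi⟩ := hx (t + x i0)
    obtain ⟨σ, hσ⟩ := row_label_perm M hM hN x y hxy i0 i
    exact ⟨σ, fun j => by rw [hσ, hi, add_sub_cancel_right]⟩
  obtain ⟨-, -, -, hys⟩ := uniform y hy
  have hys := hys hn
  have hx' : ∀ t, ∃ σ : Equiv.Perm (Fin n), ∀ i, x (σ i) = x i + t := by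
    intro t
    obtain ⟨j, hj⟩ := hys (t + y i0)
    obtain ⟨σ, hσ⟩ := col_label_perm M hM hN x y hxy i0 j
    exact ⟨σ, fun i => by rw [hσ, hj, add_sub_cancel_right]⟩
  obtain ⟨k, hk1, hk2, -⟩ := uniform x hx'
  rw [ZMod.card, hnc, mul_comm k] at hk1
  have hk : k = 2 * c + 1 := (Nat.eq_of_mul_eq_mul_left (by positivity) hk1).symm
  rw [← h1, h2, hk, add_nsmul, one_nsmul, mul_nsmul, two_nsmul_sum, nsmul_zero, zero_add] at hk2
  exact sum_zmod_ne a ha hk2.symm

end Pool.Agent.MP_318645_int
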